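import Pool.Agent.W425.ND.Stm

set_option autoImplicit false

/-! Project ND: commutation rules. -/

namespace Pool.Agent.W933.ND

open MvPolynomial Pool.Agent.W425.ND

lemma eval_aeval {σ R : Type} [CommRing R] (g : σ → R) (h : σ → MvPolynomial σ R)
    (p : MvPolynomial σ R) : eval g (aeval h p) = eval (fun o => eval g (h o)) p := by
  induction p using MvPolynomial.induction_on with
  | C a => simp
  | add p q hp hq => simp only [map_add, hp, hq]
  | mul_X p n hp => simp only [map_mul, hp, aeval_X, eval_X]

section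
variable {N : ℕ} {R : Type} [CommRing R]

lemma low_apply (δ : Fin N → ℤ) (u : Fn N R) (s : ℕ) (e : Fin N →₀ ℕ) : low δ u s e =
    if ∀ i, 0 ≤ (e i : ℤ) + δ i then
      ((∏ i, ((e i : ℤ) + δ i).toNat.descFactorial (δ i).toNat : ℕ) : R) * u s (tr δ e)
      else 0 := rfl

lemma tr_apply (δ : Fin N → ℤ) (e : Fin N →₀ ℕ) (i : Fin N) :
    tr δ e i = ((e i : ℤ) + δ i).toNat := rfl

lemma tr_cast (δ : Fin N → ℤ) (e : Fin N →₀ ℕ) (i : Fin N) (h : 0 ≤ (e i : ℤ) + δ i) :
    ((tr δ e i : ℕ) : R) = (e i : R) + ((δ i : ℤ) : R) := by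
  rw [tr_apply]
  have h1 : ((((e i : ℤ) + δ i).toNat : ℕ) : ℤ) = (e i : ℤ) + δ i := Int.toNat_of_nonneg h
  have h2 : (((((e i : ℤ) + δ i).toNat : ℕ) : ℤ) : R) = (((e i : ℤ) + δ i : ℤ) : R) := by rw [h1]
  push_cast at h2
  exact h2

lemma low_add (δ : Fin N → ℤ) (u w : Fn N R) : low δ (u + w) = low δ u + low δ w := by
  funext s e
  rw [W425.ND.add_apply, low_apply, low_apply, low_apply]
  split_ifs
  · rw [W425.ND.add_apply, mul_add]
  · rw [add_zero]

lemma low_smul (δ : Fin N → ℤ) (p : MvPolynomial (Option (Fin N)) R) (u : Fn N R) :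
    low δ (p • u) = trA δ p • low δ u := by
  funext s e
  rw [W425.ND.smul_apply, low_apply, low_apply]
  split_ifs with h
  · rw [W425.ND.smul_apply]
    have : eval (ev s e) (trA δ p) = eval (ev s (tr δ e)) p := by
      unfold trA
      rw [eval_aeval]
      congr 2
      funext o
      rcases o with _ | i
      · simp [ev]
      · simp [ev, tr_cast δ e i (h i)]
    rw [this]
    ring
  · rw [mul_zero]

lemma smul_low (δ : Fin N → ℤ) (p : MvPolynomial (Option (Fin N)) R) (u : Fn N R) :
    p • low δ u = low δ (trA (fun i => -δ i) p • u) := by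
  funext s e
  rw [W425.ND.smul_apply, low_apply, low_apply]
  split_ifs with h
  · rw [W425.ND.smul_apply]
    have : eval (ev s (tr δ e)) (trA (fun i => -δ i) p) = eval (ev s e) p := by
      unfold trA
      rw [eval_aeval]
      congr 2
      funext o
      rcases o with _ | i
      · simp [ev]
      · simp [ev, tr_cast δ e i (h i)]
    rw [this]
    ring
  · rw [mul_zero]

lemma sh_smul (L : ℕ) (p : MvPolynomial (Option (Fin N)) R) (u : Fn N R) :
    sh L (p • u) = shA L p • sh L u := by
  funext s e
  show eval (ev (s + L) e) p * u (s + L) e = eval (ev s e) (shA L p) * u (s + L) e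
  congr 1
  unfold shA
  rw [eval_aeval]
  congr 2
  funext o
  rcases o with _ | i
  · simp [ev]
  · simp [ev]

lemma exists_shA (L : ℕ) (p : MvPolynomial (Option (Fin N)) R) :
    ∃ q : MvPolynomial (Option (Fin N)) R, shA L q = p := by
  refine ⟨aeval (fun o => Option.elim o (X none - C ((L : ℕ) : R)) fun i => X (some i)) p, ?_⟩
  have h : (shA L).comp (aeval (fun o : Option (Fin N) =>
      (Option.elim o (X none - C ((L : ℕ) : R)) fun i => X (some i) :
        MvPolynomial (Option (Fin N)) R))) = AlgHom.id R (MvPolynomial (Option (Fin N)) R) := by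
    refine MvPolynomial.algHom_ext fun o => ?_
    rcases o with _ | i
    · simp [shA]
    · simp [shA]
  exact congrArg (fun φ => φ p) h

end

section
variable {N : ℕ} {k : Type} [Field k]

lemma der_nat_mul (n : ℕ) (x : PowerSeries k) :
    PowerSeries.derivative k ((n : PowerSeries k) * x) =
      (n : PowerSeries k) * PowerSeries.derivative k x := by
  rw [Derivation.leibniz, Derivation.map_natCast, smul_zero, add_zero, smul_eq_mul]

lemma der_eval (s : ℕ) (e : Fin N →₀ ℕ) (p : MvPolynomial (Option (Fin N)) (PowerSeries k)) :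
    PowerSeries.derivative k (eval (ev s e) p) = eval (ev s e) (dC p) := by
  have hev : ∃ g : Option (Fin N) → ℕ, ∀ o, (ev s e : Option (Fin N) → PowerSeries k) o = (g o : ℕ) :=
    ⟨fun o => Option.elim o s fun i => e i, fun o => by rcases o with _ | i <;> rfl⟩
  obtain ⟨g, hg⟩ := hev
  rw [MvPolynomial.eval_eq, map_sum]
  unfold dC
  rw [map_sum]
  refine Finset.sum_congr rfl fun m _ => ?_
  rw [eval_monomial, Finsupp.prod]
  have h : ∏ i ∈ m.support, (ev s e : Option (Fin N) → PowerSeries k) i ^ m i =
      ((∏ i ∈ m.support, g i ^ m i : ℕ) : PowerSeries k) := by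
    push_cast
    exact Finset.prod_congr rfl fun i _ => by rw [hg i]
  rw [h, mul_comm, der_nat_mul, mul_comm]

lemma nab_smul (p : MvPolynomial (Option (Fin N)) (PowerSeries k)) (u : Fn N (PowerSeries k)) :
    nab (p • u) = p • nab u + dC p • u := by
  funext s e
  show PowerSeries.derivative k (eval (ev s e) p * u s e) =
    eval (ev s e) p * PowerSeries.derivative k (u s e) + eval (ev s e) (dC p) * u s e
  rw [Derivation.leibniz, der_eval, smul_eq_mul, smul_eq_mul]
  ring

lemma nab_low (δ : Fin N → ℤ) (u : Fn N (PowerSeries k)) : nab (low δ u) = low δ (nab u) := by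
  funext s e
  show PowerSeries.derivative k (low δ u s e) = low δ (nab u) s e
  rw [low_apply, low_apply]
  split_ifs
  · rw [der_nat_mul]
    rfl
  · rw [map_zero]

end

theorem alg : TaskALG := by
  refine ⟨fun N R _ δ u w => low_add δ u w, fun N R _ δ p u => low_smul δ p u,
    fun N R _ δ p u => smul_low δ p u, fun N R _ L u w => rfl, fun N R _ L δ u => rfl,
    fun N R _ L p u => sh_smul L p u, fun N R _ L p u => ?_, fun N k _ u w => ?_,
    fun N k _ p u => nab_smul p u, fun N k _ δ u => nab_low δ u, fun N k _ L u => rfl⟩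
  · obtain ⟨q, hq⟩ := exists_shA (N := N) L p
    refine ⟨q, hq, ?_⟩
    rw [sh_smul, hq]
  · funext s e
    show PowerSeries.derivative k (u s e + w s e) =
      PowerSeries.derivative k (u s e) + PowerSeries.derivative k (w s e)
    rw [map_add]

end Pool.Agent.W933.ND
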